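import Pool.Agent.N408.IB.Stm

/-!
Project IB (MP_7a8df2_gt), leaf END2: the inequality at the end points of the caps.
-/

set_option autoImplicit false

open Real Set MeasureTheory IB408

namespace N136.IB.END2

lemma b_pos : 0 < b := by norm_num [b]

lemma b_small : b ≤ 1 / 1000000 := by norm_num [b]

/-- `sin` on `[0, al]` -/
lemma sin_lower (h : sin al = b) (hc : cos al = c) (hal0 : 0 < al) (hal1 : al ≤ 1)
    (hc1 : 99 / 100 ≤ c) {φ : ℝ} (h0 : 0 ≤ φ) (h1 : φ ≤ al) :
    99 / 100 * (al - φ) ≤ b - sin φ := by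
  have := Convex.mul_sub_le_image_sub_of_le_deriv (convex_Icc 0 al) (f := sin)
    continuous_sin.continuousOn differentiable_sin.differentiableOn (C := 99 / 100) (by
      intro x hx
      rw [interior_Icc] at hx
      rw [Real.deriv_sin]
      have h2 : cos al ≤ cos x := by
        apply cos_le_cos_of_nonneg_of_le_pi hx.1.le _ hx.2.le
        have := pi_gt_three
        linarith
      rw [hc] at h2
      linarith) φ ⟨h0, h1⟩ al ⟨hal0.le, le_refl _⟩ h1
  rw [h] at this
  exact this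

lemma sin_upper (h : sin al = b) {φ : ℝ} (h1 : φ ≤ al) :
    b - sin φ ≤ al - φ := by
  have := Convex.image_sub_le_mul_sub_of_deriv_le (convex_univ) (f := sin)
    continuous_sin.continuousOn differentiable_sin.differentiableOn (C := 1) (by
      intro x hx
      rw [Real.deriv_sin]
      exact cos_le_one x) φ (mem_univ _) al (mem_univ _) h1
  rw [h] at this
  linarith

lemma cos_upper {d : ℝ} (h0 : 0 ≤ d) (h1 : d ≤ 1 / 10) : cos d ≤ 1 - 45 / 100 * d ^ 2 := by
  have h2 := cos_bound (x := d) (by rw [abs_of_nonneg h0]; linarith)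
  rw [abs_of_nonneg h0] at h2
  have h3 := (abs_le.1 h2).2
  have h4 : d ^ 4 ≤ d ^ 2 * (1 / 100) := by
    have : d ^ 2 ≤ 1 / 100 := by nlinarith
    nlinarith [sq_nonneg d]
  nlinarith [sq_nonneg d]

theorem t (h2 : S_MID) (h3 : S_ODD1) (h6 : S_BAS2) (h7 : S_END1) : IB408.S_END2 := by
  intro q w hS σ hσ ψ hψ
  obtain ⟨hA, hw0, hw1, hfix, hAvb⟩ := hS
  obtain ⟨⟨hbal, halb, hsin, hcos, hc0, hc1, hc2, hc3⟩, hoc1, hoc2, hoc3, hoc4, hoc5, hoc6, hoc7,
    hoc8⟩ := h3
  obtain ⟨B1, B2, B3, B4, B5, B6, B7, B8, B9, B10, B11, B12, B13, B14⟩ := h6 q w hA hw0 hw1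
  have hb0 := b_pos
  have hbs := b_small
  have hal0 : 0 < al := lt_of_lt_of_le hb0 hbal
  have hal1 : al ≤ 1 / 10 := by linarith
  have hb2 : b ^ 2 ≤ 1 / 1000000 := by nlinarith
  have hb3 : b ^ 3 ≤ 1 / 1000000 := by
    have : b ^ 3 = b ^ 2 * b := by ring
    rw [this]
    nlinarith [sq_nonneg b]
  have hb3' : 0 < b ^ 3 := by positivity
  have hc99 : 99 / 100 ≤ c := by linarith
  have hleg : ∀ θ, al ≤ |θ| → |θ| ≤ 1 → Leg (hb q w) θ = 1 :=
    h2 (hb q w) B1 (fun ψ => (B2 ψ).trans (by linarith)) B3 (h7 q w hA hw0 hw1)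
  have hPal : Pbelt q w al = 1 := by
    unfold Pbelt
    rw [hleg al (by rw [abs_of_pos hal0]) (by rw [abs_of_pos hal0]; linarith),
      hleg (-al) (by rw [abs_neg, abs_of_pos hal0]) (by rw [abs_neg, abs_of_pos hal0]; linarith)]
    norm_num
  -- the bound for `pt`
  have hpt : ∀ t, 0 ≤ t → t ≤ b → |pt q w t| ≤ 3 * b ^ 2 * (b - t) := by
    intro t ht0 ht1
    have e : pt q w t = Pbelt q w (arcsin t) - Pbelt q w al := by
      rw [hPal]
      rfl
    rw [e]
    have ha0 : 0 ≤ arcsin t := arcsin_nonneg.2 ht0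
    have ha1 : arcsin t ≤ al := monotone_arcsin ht1
    have ha2 : sin (arcsin t) = t := sin_arcsin (by linarith) (by linarith)
    have hl := sin_lower hsin hcos hal0 (by linarith) hc99 ha0 ha1
    rw [ha2] at hl
    refine (B7 _ _).trans ?_
    rw [abs_sub_comm, abs_of_nonneg (by linarith)]
    have h8 : al - arcsin t ≤ 3 / 2 * (b - t) := by linarith
    have h9 : 2 * b ^ 2 * (al - arcsin t) ≤ 2 * b ^ 2 * (3 / 2 * (b - t)) :=
      mul_le_mul_of_nonneg_left h8 (by positivity)
    linarith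
  -- the bound for `x Av x`
  have hxA : ∀ x, 0 ≤ x → x ≤ b → |x * Av q w x| ≤ 3 * b ^ 2 * (b - x) ^ 2 := by
    intro x hx0 hx1
    have e1 := B14 b
    rw [hAvb, mul_zero] at e1
    have e2 : (∫ t in (0 : ℝ)..x, pt q w t) + ∫ t in x..b, pt q w t
        = ∫ t in (0 : ℝ)..b, pt q w t :=
      intervalIntegral.integral_add_adjacent_intervals (B9.intervalIntegrable _ _)
        (B9.intervalIntegrable _ _)
    have e3 : x * Av q w x = -∫ t in x..b, pt q w t := by
      rw [B14 x]
      linarith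
    rw [e3, abs_neg, ← Real.norm_eq_abs]
    have h8 := intervalIntegral.norm_integral_le_of_norm_le_const (a := x) (b := b)
      (C := 3 * b ^ 2 * (b - x)) (f := pt q w) (by
        intro t ht
        rw [uIoc_of_le hx1] at ht
        rw [Real.norm_eq_abs]
        refine (hpt t (by linarith [ht.1]) ht.2).trans ?_
        exact mul_le_mul_of_nonneg_left (by linarith [ht.1]) (by positivity))
    rw [abs_of_nonneg (by linarith : (0 : ℝ) ≤ b - x)] at h8
    calc _ ≤ _ := h8
      _ = _ := by ring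
  -- the bound for `Av x`
  have hAv : ∀ x, 0 ≤ x → x ≤ b → |Av q w x| ≤ 6 * b * (b - x) ^ 2 := by
    intro x hx0 hx1
    rcases le_total x (b / 2) with h8 | h8
    · have h9 : b ^ 2 / 4 ≤ (b - x) ^ 2 := by nlinarith
      have h10 : b * (b ^ 2 / 4) ≤ b * (b - x) ^ 2 := mul_le_mul_of_nonneg_left h9 hb0.le
      have h11 := B12 x
      have h12 : b * (b ^ 2 / 4) = b ^ 3 / 4 := by ring
      have h13 : 0 ≤ b * (b - x) ^ 2 := by positivity
      nlinarith
    · have h9 := hxA x hx0 hx1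
      rw [abs_mul, abs_of_nonneg hx0] at h9
      have h10 : b / 2 * |Av q w x| ≤ x * |Av q w x| :=
        mul_le_mul_of_nonneg_right h8 (abs_nonneg _)
      have h11 : b / 2 * |Av q w x| ≤ b / 2 * (6 * b * (b - x) ^ 2) := by
        calc _ ≤ _ := h10
          _ ≤ _ := h9
          _ = _ := by ring
      exact le_of_mul_le_mul_left h11 (by positivity)
  have hAv' : ∀ x, |x| ≤ b → |Av q w x| ≤ 6 * b * (b - |x|) ^ 2 := by
    intro x hx
    have h8 := hAv |x| (abs_nonneg x) hx
    rcases abs_choice x with h9 | h9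
    · rw [h9] at h8 ⊢
      exact h8
    · rw [h9] at h8 ⊢
      rw [B13] at h8
      exact h8
  -- the bound for `q`
  have hq : ∀ x, |x| ≤ b → -(12 * b * (b - |x|) ^ 2) ≤ q x := by
    intro x hx
    have hcl : cl x = x := by
      unfold cl
      rw [min_eq_left (abs_le.1 hx).2, max_eq_right (abs_le.1 hx).1]
    have e : q x = 1 / (1 + Av q w x) - 1 := by
      rw [hfix x]
      unfold Tw
      rw [hAvb, hcl, mul_zero, sub_zero]
    have h8 := hAv' x hx
    have h9 := B12 x
    have h10 : |Av q w x| ≤ 1 / 2 := by linarith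
    have h11 := abs_le.1 h10
    rw [e]
    have h13 : (0 : ℝ) < 1 + Av q w x := by linarith
    have h12 : 1 / (1 + Av q w x) - 1 = -(Av q w x / (1 + Av q w x)) := by
      have h16 : (1 + Av q w x) ≠ 0 := h13.ne'
      field_simp
      ring
    rw [h12]
    apply neg_le_neg
    rw [div_le_iff₀ h13]
    have h14 : 0 ≤ b * (b - |x|) ^ 2 := by positivity
    have h15 := le_abs_self (Av q w x)
    nlinarith
  -- conclusion
  have hx : |sin ψ| = sin |ψ| := by
    rcases abs_choice ψ with h8 | h8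
    · rw [h8]
      apply abs_of_nonneg
      have h9 : 0 ≤ ψ := abs_eq_self.1 h8
      apply sin_nonneg_of_nonneg_of_le_pi h9
      have := pi_gt_three
      have := le_abs_self ψ
      linarith
    · rw [h8, sin_neg]
      apply abs_of_nonpos
      have h9 : ψ ≤ 0 := abs_eq_neg_self.1 h8
      apply sin_nonpos_of_nonpos_of_neg_pi_le h9
      have := pi_gt_three
      have := neg_abs_le ψ
      linarith
  have hl := sin_lower hsin hcos hal0 (by linarith) hc99 (abs_nonneg ψ) hψ
  have hu := sin_upper hsin hψ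
  rw [← hx] at hl hu
  have hd0 : 0 ≤ al - |ψ| := by linarith
  have hd1 : al - |ψ| ≤ 1 / 10 := by linarith [abs_nonneg ψ]
  have hxb : |sin ψ| ≤ b := by linarith
  have hq1 := hq (sin ψ) hxb
  have hsq : (b - |sin ψ|) ^ 2 ≤ (al - |ψ|) ^ 2 := pow_le_pow_left₀ (by linarith) hu 2
  have hq2 : b * (b - |sin ψ|) ^ 2 ≤ 1 / 1000000 * (al - |ψ|) ^ 2 :=
    mul_le_mul hbs hsq (by positivity) (by norm_num)
  have hoc := hoc8 ψ hψ
  have hoc0 := hoc3 ψ
  have hco := cos_upper hd0 hd1
  have hσo : -(3 / 100 * (al - |ψ|) ^ 2) ≤ σ * oc ψ := by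
    rcases hσ with rfl | rfl
    · nlinarith [sq_nonneg (al - |ψ|)]
    · linarith
  have hd2 := sq_nonneg (al - |ψ|)
  unfold hc
  linarith

end N136.IB.END2
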